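import Pool.Agent.W586.SK.Stm

/-!
Project SK (owner helper586), part SK-HARDY.
-/

set_option autoImplicit false


namespace Pool.Agent.W50.SK

open MeasureTheory Set Pool.Agent.W586.SK
open Pool.Agent.H212R2.KLS (mu Bdd)
open Pool.Agent.H888R2.KT (LC)

theorem mp_mu {n : ℕ} {ρ : E n → ℝ} (hm : Measurable ρ) (g : E n ≃ₗᵢ[ℝ] E n)
    (hg : ∀ x, ρ (g x) = ρ x) : MeasurePreserving g (mu ρ) (mu ρ) := by
  refine ⟨g.continuous.measurable, ?_⟩
  have hgm : Measurable g := g.continuous.measurable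
  have hvol : MeasurePreserving g (volume : Measure (E n)) volume := g.measurePreserving
  ext s hs
  rw [Measure.map_apply hgm hs]
  unfold mu
  rw [withDensity_apply _ (hgm hs), withDensity_apply _ hs]
  have h1 := hvol.setLIntegral_comp_preimage hs (f := fun x => ENNReal.ofReal (ρ x))
    (by fun_prop)
  rw [← h1]
  simp only [hg]

theorem int_comp {n : ℕ} {ρ : E n → ℝ} (hm : Measurable ρ) (g : E n ≃ₗᵢ[ℝ] E n)
    (hg : ∀ x, ρ (g x) = ρ x) (f : E n → ℝ) :
    ∫ x, f (g x) ∂(mu ρ) = ∫ x, f x ∂(mu ρ) :=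
  (mp_mu hm g hg).integral_comp g.toHomeomorph.measurableEmbedding f

theorem ae_mu {n : ℕ} {ρ : E n → ℝ} (hm : Measurable ρ) (p : E n → Prop)
    (h : ∀ x, ρ x ≠ 0 → p x) : ∀ᵐ x ∂(mu ρ), p x := by
  unfold mu
  rw [ae_withDensity_iff (by fun_prop)]
  refine Filter.Eventually.of_forall fun x hx => h x ?_
  intro h0
  rw [h0] at hx
  simp at hx

theorem rho_rf {n : ℕ} {ρ : E n → ℝ} (hS : Sy ρ) (i : Fin n) (x : E n) : ρ (rf i x) = ρ x := by
  refine hS.inv (Equiv.refl _) x _ fun j => ?_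
  rw [rf_apply]
  split_ifs <;> simp

theorem fderiv_rf {n : ℕ} (i : Fin n) (g : E n → ℝ) (hg : ContDiff ℝ 1 g)
    (hodd : ∀ x, g (rf i x) = - g x) (x : E n) : ‖fderiv ℝ g (rf i x)‖ = ‖fderiv ℝ g x‖ := by
  have hd : Differentiable ℝ g := hg.differentiable (by norm_num)
  have h1 : (fun x => g (rf i x)) = fun x => - g x := funext hodd
  have h2 : fderiv ℝ (fun x => g (rf i x)) x
      = (fderiv ℝ g (rf i x)).comp ((rf i).toContinuousLinearEquiv : E n →L[ℝ] E n) := by
    have h3 : HasFDerivAt (fun x => rf i x) ((rf i).toContinuousLinearEquiv : E n →L[ℝ] E n) x :=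
      (rf i).toContinuousLinearEquiv.hasFDerivAt
    exact ((hd (rf i x)).hasFDerivAt.comp x h3).fderiv
  have h4 : fderiv ℝ (fun x => g (rf i x)) x = - fderiv ℝ g x := by
    rw [h1]
    exact fderiv_fun_neg
  rw [h4] at h2
  have h5 := congrArg norm h2
  rw [norm_neg] at h5
  rw [h5]
  exact (ContinuousLinearMap.opNorm_comp_linearIsometryEquiv (fderiv ℝ g (rf i x)) (rf i)).symm

theorem rf_self {n : ℕ} (i : Fin n) (x : E n) : (rf i x) i = - x i := by
  rw [rf_apply, if_pos rfl]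

theorem rf_fix {n : ℕ} (i : Fin n) (x : E n) (hx : x i = 0) : rf i x = x := by
  ext j
  rw [rf_apply]
  by_cases hj : j = i
  · rw [if_pos hj, hj, hx, neg_zero]
  · rw [if_neg hj]

theorem half_sq {n : ℕ} (i : Fin n) (g : E n → ℝ) (hgodd : ∀ x, g (rf i x) = - g x) (x : E n) :
    g x ^ 2 = (if 0 < x i then g x ^ 2 else 0) +
      (if 0 < (rf i x) i then g (rf i x) ^ 2 else 0) := by
  rw [rf_self, hgodd]
  rcases lt_trichotomy (x i) 0 with hx | hx | hx
  · rw [if_neg (not_lt.2 hx.le), if_pos (neg_pos.2 hx)]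
    ring
  · have e1 : g x = 0 := by
      have := hgodd x
      rw [rf_fix i x hx] at this
      linarith
    rw [e1, hx]
    simp
  · rw [if_pos hx, if_neg (by linarith)]
    ring

theorem ind_le {n : ℕ} (i : Fin n) (φ : E n → ℝ) (h0 : ∀ x, 0 ≤ φ x)
    (he : ∀ x, φ (rf i x) = φ x) (x : E n) :
    {x : E n | 0 < x i}.indicator φ x + {x : E n | 0 < x i}.indicator φ (rf i x) ≤ φ x := by
  rcases le_or_gt (x i) 0 with hx | hx
  · have h1 : {x : E n | 0 < x i}.indicator φ x = 0 :=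
      indicator_of_notMem (s := {x : E n | 0 < x i}) (not_lt.2 hx) _
    have h2 : {x : E n | 0 < x i}.indicator φ (rf i x) ≤ φ (rf i x) :=
      indicator_le_self' (fun y _ => h0 y) _
    rw [h1, zero_add]
    exact h2.trans (he x).le
  · have h1 : {x : E n | 0 < x i}.indicator φ x = φ x :=
      indicator_of_mem (s := {x : E n | 0 < x i}) hx _
    have h2 : {x : E n | 0 < x i}.indicator φ (rf i x) = 0 := by
      refine indicator_of_notMem (s := {x : E n | 0 < x i}) ?_ _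
      show ¬ 0 < (rf i x) i
      rw [rf_self]
      linarith
    rw [h1, h2, add_zero]

/-- integrals of functions on the half space -/
theorem sym_int {n : ℕ} {ρ : E n → ℝ} (hS : Sy ρ) (i : Fin n) (F G : E n → ℝ)
    (hF : Integrable F (mu ρ)) (hG : ∀ x, G x = F x + F (rf i x)) :
    ∫ x, G x ∂(mu ρ) = 2 * ∫ x, F x ∂(mu ρ) := by
  have hrr := rho_rf hS i
  have hmp := mp_mu hS.meas (rf i) hrr
  have hFr : ∫ x, F (rf i x) ∂(mu ρ) = ∫ x, F x ∂(mu ρ) := int_comp hS.meas _ hrr F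
  have hFri : Integrable (fun x => F (rf i x)) (mu ρ) :=
    (hmp.integrable_comp_emb (rf i).toHomeomorph.measurableEmbedding).2 hF
  have e1 : ∫ x, G x ∂(mu ρ) = ∫ x, (F x + F (rf i x)) ∂(mu ρ) := by
    congr 1
    funext x
    exact hG x
  rw [e1, integral_add hF hFri, hFr]
  ring

theorem sym_int_le {n : ℕ} {ρ : E n → ℝ} (hS : Sy ρ) (i : Fin n) (F G : E n → ℝ)
    (hF : Integrable F (mu ρ)) (hGi : Integrable G (mu ρ)) (hG : ∀ x, F x + F (rf i x) ≤ G x) :
    2 * ∫ x, F x ∂(mu ρ) ≤ ∫ x, G x ∂(mu ρ) := by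
  have hrr := rho_rf hS i
  have hmp := mp_mu hS.meas (rf i) hrr
  have hFr : ∫ x, F (rf i x) ∂(mu ρ) = ∫ x, F x ∂(mu ρ) := int_comp hS.meas _ hrr F
  have hFri : Integrable (fun x => F (rf i x)) (mu ρ) :=
    (hmp.integrable_comp_emb (rf i).toHomeomorph.measurableEmbedding).2 hF
  have e1 : ∫ x, (F x + F (rf i x)) ∂(mu ρ) ≤ ∫ x, G x ∂(mu ρ) :=
    integral_mono (hF.add hFri) hGi hG
  rw [integral_add hF hFri, hFr] at e1
  linarith

theorem hardy (h1 : S_FLOW) (h2 : S_FIELD) (h3 : S_HALF) (h4 : S_CUT) : S_HARDY := by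
  intro n ρ hS hL a ha hsupp i f hf hodd
  obtain ⟨R0, hR0⟩ := hL.bdd
  have hR : 0 < max R0 1 := lt_max_of_lt_right one_pos
  obtain ⟨η, hη1, hη2, hη3, hη4⟩ := h4 (n := n) (max R0 1) hR
  have hfin : IsFiniteMeasure (mu ρ) := ⟨lt_top_iff_ne_top.2 hL.fin⟩
  set g : E n → ℝ := fun x => f x * η x with hg
  have hgc : ContDiff ℝ 1 g := hf.mul hη1
  have hgs : HasCompactSupport g := hη2.mul_left
  have hgodd : ∀ x, g (rf i x) = - g x := by
    intro x
    simp only [hg]
    rw [hodd, hη4]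
    ring
  have hball : ∀ x, ρ x ≠ 0 → ‖x‖ ≤ max R0 1 := by
    intro x hx
    by_contra hc
    rw [not_le] at hc
    exact hx (hR0 x ((le_max_left _ _).trans_lt hc))
  have hgf : ∀ x, ρ x ≠ 0 → g x = f x := by
    intro x hx
    simp only [hg]
    rw [(hη3 x (hball x hx)).1, mul_one]
  have hdgf : ∀ x, ρ x ≠ 0 → fderiv ℝ g x = fderiv ℝ f x := by
    intro x hx
    have e1 : fderiv ℝ g x = f x • fderiv ℝ η x + η x • fderiv ℝ f x :=
      fderiv_fun_mul (hf.differentiable (by norm_num) x) (hη1.differentiable (by norm_num) x)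
    rw [e1, (hη3 x (hball x hx)).1, (hη3 x (hball x hx)).2, smul_zero, zero_add, one_smul]
  have hI1 : ∫ x, f x ^ 2 ∂(mu ρ) = ∫ x, g x ^ 2 ∂(mu ρ) :=
    integral_congr_ae (ae_mu hS.meas _ fun x hx => by
      show f x ^ 2 = g x ^ 2
      rw [hgf x hx])
  have hI2 : ∫ x, ‖fderiv ℝ f x‖ ^ 2 ∂(mu ρ) = ∫ x, ‖fderiv ℝ g x‖ ^ 2 ∂(mu ρ) :=
    integral_congr_ae (ae_mu hS.meas _ fun x hx => by
      show ‖fderiv ℝ f x‖ ^ 2 = ‖fderiv ℝ g x‖ ^ 2
      rw [hdgf x hx])
  rw [hI1, hI2]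
  -- the half function
  obtain ⟨hFc, hFd⟩ := h3 i g hgc hgodd
  set F : E n → ℝ := fun x : E n => if 0 < x i then g x ^ 2 else 0 with hF
  have hF0 : ∀ x, 0 ≤ F x := by
    intro x
    simp only [hF]
    split_ifs
    · positivity
    · exact le_rfl
  have hFz : ∀ x, x i ≤ 0 → F x = 0 := by
    intro x hx
    simp only [hF]
    rw [if_neg (not_lt.2 hx)]
  have hFs : HasCompactSupport F := by
    refine hgs.mono ?_
    intro x hx
    rw [Function.mem_support] at hx ⊢
    intro h0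
    apply hx
    simp only [hF]
    rw [h0]
    simp
  set w : E n → E n := fw (24 * a) i with hw
  have hwc : ContDiff ℝ 1 w := (h2 i a ha).1
  have hflow := h1 ρ hS hL i a ha F hFc hFs hF0 hFz
  rw [← hw] at hflow
  -- continuity and integrability
  have hdv : Continuous (dv w) := by
    unfold dv
    refine continuous_finset_sum _ fun k _ => ?_
    have e1 : Continuous (fderiv ℝ w) := hwc.continuous_fderiv (by norm_num)
    have e2 : Continuous fun x => (fderiv ℝ w x) (EuclideanSpace.single k 1) :=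
      e1.clm_apply continuous_const
    exact (EuclideanSpace.proj k : E n →L[ℝ] ℝ).continuous.comp e2
  have hLint : Integrable (fun x => fderiv ℝ F x (w x) + F x * dv w x) (mu ρ) := by
    refine Continuous.integrable_of_hasCompactSupport ?_ ?_
    · exact ((hFc.continuous_fderiv (by norm_num)).clm_apply hwc.continuous).add
        (hFc.continuous.mul hdv)
    · refine HasCompactSupport.add ?_ ?_
      · have e1 : HasCompactSupport (fderiv ℝ F) := hFs.fderiv (𝕜 := ℝ)
        refine e1.mono ?_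
        intro x hx
        rw [Function.mem_support] at hx ⊢
        intro h0
        apply hx
        rw [h0]
        rfl
      · exact hFs.mul_right
  have hFint : Integrable F (mu ρ) := hFc.continuous.integrable_of_hasCompactSupport hFs
  have hDc : Continuous fun x => ‖fderiv ℝ g x‖ ^ 2 :=
    (hgc.continuous_fderiv (by norm_num)).norm.pow 2
  have hDs : HasCompactSupport fun x => ‖fderiv ℝ g x‖ ^ 2 := by
    have e1 : HasCompactSupport (fderiv ℝ g) := hgs.fderiv (𝕜 := ℝ)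
    refine e1.mono ?_
    intro x hx
    rw [Function.mem_support] at hx ⊢
    intro h0
    apply hx
    rw [h0]
    simp
  have hDint : Integrable (fun x => ‖fderiv ℝ g x‖ ^ 2) (mu ρ) :=
    hDc.integrable_of_hasCompactSupport hDs
  have hSm : MeasurableSet {x : E n | 0 < x i} :=
    (isOpen_lt continuous_const (EuclideanSpace.proj i : E n →L[ℝ] ℝ).continuous).measurableSet
  set H : E n → ℝ := {x : E n | 0 < x i}.indicator (fun x => ‖fderiv ℝ g x‖ ^ 2) with hH
  have hHint : Integrable H (mu ρ) := hDint.indicator hSm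
  -- pointwise inequality
  have hpt : ∀ x, ρ x ≠ 0 → fderiv ℝ F x (w x) + F x * dv w x ≤
      -(1 / (384 * a)) * F x + 3456 * a * H x := by
    intro x hx
    by_cases hxi : 0 < x i
    · have e1 : F x = g x ^ 2 := by simp only [hF]; rw [if_pos hxi]
      have e2 : H x = ‖fderiv ℝ g x‖ ^ 2 := by
        simp only [hH]
        exact indicator_of_mem (s := {x : E n | 0 < x i}) hxi _
      have e3 : fderiv ℝ F x = (2 * g x) • fderiv ℝ g x := by
        rw [hFd x, if_pos hxi]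
      obtain ⟨f1, f2, -⟩ := (h2 i a ha).2 x hxi
      have f2' := f2 (hsupp x hx)
      rw [← hw] at f1 f2'
      rw [e3, e2, e1, ContinuousLinearMap.smul_apply, smul_eq_mul]
      have g1 : |fderiv ℝ g x (w x)| ≤ ‖fderiv ℝ g x‖ * 3 := by
        have := (fderiv ℝ g x).le_opNorm (w x)
        rw [Real.norm_eq_abs] at this
        exact this.trans (mul_le_mul_of_nonneg_left f1 (norm_nonneg _))
      have g2 : 2 * g x * fderiv ℝ g x (w x) ≤ 6 * (|g x| * ‖fderiv ℝ g x‖) := by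
        calc 2 * g x * fderiv ℝ g x (w x) ≤ |2 * g x * fderiv ℝ g x (w x)| := le_abs_self _
          _ = 2 * |g x| * |fderiv ℝ g x (w x)| := by
              rw [abs_mul, abs_mul, abs_two]
          _ ≤ 2 * |g x| * (‖fderiv ℝ g x‖ * 3) :=
              mul_le_mul_of_nonneg_left g1 (by positivity)
          _ = 6 * (|g x| * ‖fderiv ℝ g x‖) := by ring
      have g3 : g x ^ 2 * dv w x ≤ g x ^ 2 * (-(1 / (192 * a))) :=
        mul_le_mul_of_nonneg_left f2' (sq_nonneg _)
      have g4 : 6 * (|g x| * ‖fderiv ℝ g x‖) ≤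
          1 / (384 * a) * g x ^ 2 + 3456 * a * ‖fderiv ℝ g x‖ ^ 2 := by
        have k1 : 0 ≤ 1 / (384 * a) * (|g x| - 1152 * a * ‖fderiv ℝ g x‖) ^ 2 := by positivity
        have k2 : 1 / (384 * a) * (|g x| - 1152 * a * ‖fderiv ℝ g x‖) ^ 2
            = 1 / (384 * a) * |g x| ^ 2 - 6 * (|g x| * ‖fderiv ℝ g x‖)
              + 3456 * a * ‖fderiv ℝ g x‖ ^ 2 := by
          field_simp
          ring
        rw [k2, sq_abs] at k1
        linarith
      have g5 : g x ^ 2 * (-(1 / (192 * a))) = -(1 / (384 * a)) * g x ^ 2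
          - 1 / (384 * a) * g x ^ 2 := by
        field_simp
        ring
      linarith
    · have e1 : F x = 0 := hFz x (not_lt.1 hxi)
      have e2 : H x = 0 := by
        simp only [hH]
        exact indicator_of_notMem (s := {x : E n | 0 < x i}) hxi _
      have e3 : fderiv ℝ F x = 0 := by
        rw [hFd x, if_neg hxi]
      rw [e3, e2, e1]
      simp
  have hkey : ∫ x, F x ∂(mu ρ) ≤ (1152 * a) ^ 2 * ∫ x, H x ∂(mu ρ) := by
    have k1 : ∫ x, (fderiv ℝ F x (w x) + F x * dv w x) ∂(mu ρ) ≤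
        ∫ x, (-(1 / (384 * a)) * F x + 3456 * a * H x) ∂(mu ρ) :=
      integral_mono_ae hLint ((hFint.const_mul _).add (hHint.const_mul _))
        (ae_mu hS.meas _ hpt)
    rw [integral_add (hFint.const_mul _) (hHint.const_mul _), integral_const_mul,
      integral_const_mul] at k1
    have k2 := hflow.trans k1
    have k3 : 0 ≤ 384 * a * (-(1 / (384 * a)) * ∫ x, F x ∂(mu ρ)
        + 3456 * a * ∫ x, H x ∂(mu ρ)) := mul_nonneg (by positivity) k2
    have k4 : 384 * a * (-(1 / (384 * a)) * ∫ x, F x ∂(mu ρ) + 3456 * a * ∫ x, H x ∂(mu ρ))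
        = - ∫ x, F x ∂(mu ρ) + (1152 * a) ^ 2 * ∫ x, H x ∂(mu ρ) := by
      field_simp
      ring
    rw [k4] at k3
    linarith
  -- symmetrisation
  have hI3 : ∫ x, g x ^ 2 ∂(mu ρ) = 2 * ∫ x, F x ∂(mu ρ) :=
    sym_int hS i F (fun x => g x ^ 2) hFint (half_sq i g hgodd)
  have hI4 : 2 * ∫ x, H x ∂(mu ρ) ≤ ∫ x, ‖fderiv ℝ g x‖ ^ 2 ∂(mu ρ) :=
    sym_int_le hS i H (fun x => ‖fderiv ℝ g x‖ ^ 2) hHint hDint
      (ind_le i (fun x => ‖fderiv ℝ g x‖ ^ 2) (fun x => sq_nonneg _)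
        (fun x => by
          show ‖fderiv ℝ g (rf i x)‖ ^ 2 = ‖fderiv ℝ g x‖ ^ 2
          rw [fderiv_rf i g hgc hgodd x]))
  have hfinal : 2 * ∫ x, F x ∂(mu ρ) ≤
      (1152 * a) ^ 2 * ∫ x, ‖fderiv ℝ g x‖ ^ 2 ∂(mu ρ) := by
    have m1 := mul_le_mul_of_nonneg_left hI4 (sq_nonneg (1152 * a))
    linarith
  exact hI3.le.trans hfinal

end Pool.Agent.W50.SK
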